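import Mathlib

/-!
# MP_19fe04_lc, Q1 answered positively

Let `F` be the field with four elements and `K` its algebraic closure, a countably infinite
`F`-vector space.  The affine `F`-lines of `K` form a Steiner 2-system whose automorphism group is
2-transitive and preserves the Steiner 3-system of all 4-sets with sum zero.
-/

namespace Pool.Agent.Results.MP_19fe04_lc.SteinerPair

/-- `𝓑` is a Steiner `k`-system on `Ω`: every block has at least `k + 1` elements, there are at
least two blocks, and any `k` distinct points lie in exactly one block. -/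
def IsSteiner {Ω : Type} (k : ℕ) (𝓑 : Set (Set Ω)) : Prop :=
  (∀ B ∈ 𝓑, ((k : ℕ∞) + 1) ≤ B.encard) ∧ (∃ B ∈ 𝓑, ∃ B' ∈ 𝓑, B ≠ B') ∧
    ∀ s : Finset Ω, s.card = k → ∃! B : Set Ω, B ∈ 𝓑 ∧ (s : Set Ω) ⊆ B

/-- The permutation `g` maps the family `𝓑` onto itself. -/
def Preserves {Ω : Type} (g : Equiv.Perm Ω) (𝓑 : Set (Set Ω)) : Prop :=
  (fun B : Set Ω => g '' B) '' 𝓑 = 𝓑

/-- The set `G` of permutations acts transitively on ordered `k`-tuples of distinct points. -/
def IsKTransitive {Ω : Type} (k : ℕ) (G : Set (Equiv.Perm Ω)) : Prop :=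
  ∀ x y : Fin k → Ω, Function.Injective x → Function.Injective y → ∃ g ∈ G, ∀ i, g (x i) = y i

section

/-- the field with four elements -/
abbrev F : Type := GaloisField 2 2

/-- its algebraic closure -/
abbrev K : Type := AlgebraicClosure F

noncomputable instance : Fintype F := Fintype.ofFinite F

lemma cardF : Nat.card F = 4 := by
  rw [GaloisField.card 2 2 (by norm_num)]; norm_num

lemma cardF' : Fintype.card F = 4 := by
  rw [← Nat.card_eq_fintype_card, cardF]

instance : CharP K 2 := charP_of_injective_algebraMap (algebraMap F K).injective 2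

lemma countK : Countable K := by
  have h := Algebra.IsAlgebraic.cardinalMk_le_max F K
  have h2 : Cardinal.mk F ≤ Cardinal.aleph0 := Cardinal.mk_le_aleph0
  rw [max_eq_right h2] at h
  exact Cardinal.mk_le_aleph0_iff.1 h

lemma pow4 (x : F) : x ^ 4 = x := by
  have := FiniteField.pow_card x
  rwa [cardF'] at this

/-- elements outside `{0,1}` satisfy `x² = x + 1` -/
lemma sq_eq {x : F} (h0 : x ≠ 0) (h1 : x ≠ 1) : x ^ 2 = x + 1 := by
  have h := pow4 x
  have h2 : x * (x - 1) * (x ^ 2 + x + 1) = 0 := by linear_combination h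
  rcases mul_eq_zero.1 h2 with h3 | h3
  · rcases mul_eq_zero.1 h3 with h4 | h4
    · exact absurd h4 h0
    · exact absurd (sub_eq_zero.1 h4) h1
  · have h4 : x ^ 2 = -(x + 1) := by linear_combination h3
    rw [h4, CharTwo.neg_eq]

lemma two_F : (2 : F) = 0 := CharTwo.two_eq_zero

lemma eq_or {x y : F} (h0 : x ≠ 0) (h1 : x ≠ 1) (k0 : y ≠ 0) (k1 : y ≠ 1) :
    y = x ∨ y = x + 1 := by
  have hx := sq_eq h0 h1
  have hy := sq_eq k0 k1
  have h : (y - x) * (y - (x + 1)) = 0 := by
    linear_combination hy + hx + (1 + x - x * y) * two_F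
  rcases mul_eq_zero.1 h with h | h
  · left; exact sub_eq_zero.1 h
  · right; exact sub_eq_zero.1 h

/-- the affine `F`-line through `a` with direction `v` -/
def line (a v : K) : Set K := Set.range fun t : F => a + t • v

/-- the lines -/
def Lines : Set (Set K) := {L | ∃ a v : K, v ≠ 0 ∧ L = line a v}

/-- the 4-sets with sum zero -/
def Quads : Set (Set K) := {D | ∃ s : Finset K, s.card = 4 ∧ ∑ x ∈ s, x = 0 ∧ D = ↑s}

lemma line_inj {a v : K} (hv : v ≠ 0) : Function.Injective fun t : F => a + t • v := by
  intro s t h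
  have h1 : s • v = t • v := add_left_cancel h
  exact smul_left_injective F hv h1

/-- a line is determined by two of its points -/
lemma line_eq {a v p q : K} (hp : p ∈ line a v) (hq : q ∈ line a v) (hpq : p ≠ q) :
    line a v = line p (q - p) := by
  obtain ⟨s, rfl⟩ := hp
  obtain ⟨t, rfl⟩ := hq
  have hst : t - s ≠ 0 := by
    intro h
    apply hpq
    rw [sub_eq_zero.1 h]
  ext x
  constructor
  · rintro ⟨r, rfl⟩
    refine ⟨(r - s) / (t - s), ?_⟩
    have e : a + t • v - (a + s • v) = (t - s) • v := by rw [sub_smul]; abel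
    simp only [e, smul_smul, div_mul_cancel₀ _ hst]
    rw [sub_smul]; abel
  · rintro ⟨r, rfl⟩
    refine ⟨s + r * (t - s), ?_⟩
    have e : a + t • v - (a + s • v) = (t - s) • v := by rw [sub_smul]; abel
    simp only [e, smul_smul]
    rw [add_smul]; abel

lemma left_mem (a v : K) : a ∈ line a v := ⟨0, by simp⟩

lemma right_mem (p q : K) : q ∈ line p (q - p) := ⟨1, by simp⟩

lemma encard_line {a v : K} (hv : v ≠ 0) : (line a v).encard = 4 := by
  unfold line
  rw [← Set.image_univ, (line_inj hv).encard_image, Set.encard_univ, ENat.card_eq_coe_natCard,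
    cardF]
  rfl

lemma steinerLines : IsSteiner 2 Lines := by
  classical
  refine ⟨?_, ?_, ?_⟩
  · rintro B ⟨a, v, hv, rfl⟩
    rw [encard_line hv]
    norm_num
  · have : Infinite K := inferInstance
    obtain ⟨x, hx⟩ : ∃ x : K, x ∉ line 0 1 := by
      by_contra h
      push Not at h
      have : (Set.univ : Set K).Finite := by
        have h2 : (line 0 1 : Set K).Finite := Set.finite_range _
        exact h2.subset fun x _ => h x
      exact Set.infinite_univ this
    refine ⟨line 0 1, ⟨0, 1, one_ne_zero, rfl⟩, line x 1, ⟨x, 1, one_ne_zero, rfl⟩, ?_⟩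
    intro h
    apply hx
    rw [h]
    exact left_mem x 1
  · intro s hs
    obtain ⟨p, q, hpq, rfl⟩ := Finset.card_eq_two.1 hs
    refine ⟨line p (q - p), ⟨⟨p, q - p, sub_ne_zero.2 hpq.symm, rfl⟩, ?_⟩, ?_⟩
    · intro x hx
      simp only [Finset.coe_insert, Finset.coe_singleton, Set.mem_insert_iff,
        Set.mem_singleton_iff] at hx
      rcases hx with rfl | rfl
      · exact left_mem _ _
      · exact right_mem _ _
    · rintro B ⟨⟨a, v, hv, rfl⟩, hB⟩
      exact line_eq (hB (by simp)) (hB (by simp)) hpq

lemma two_K : (2 : K) = 0 := CharTwo.two_eq_zero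

lemma neg_K (x : K) : -x = x := CharTwo.neg_eq x

lemma steinerQuads : IsSteiner 3 Quads := by
  classical
  refine ⟨?_, ?_, ?_⟩
  · rintro B ⟨s, hs, -, rfl⟩
    rw [Set.encard_coe_eq_coe_finsetCard, hs]
    norm_num
  · -- two blocks
    have : Infinite K := inferInstance
    -- blocks `{0, 1, x, x + 1}` for `x` outside `{0,1}`
    have key : ∀ x : K, x ≠ 0 → x ≠ 1 → (({0, 1, x, x + 1} : Finset K) : Set K) ∈ Quads := by
      intro x h0 h1
      have h2 : x + 1 ≠ 0 := by
        intro h
        apply h1
        have : x = -1 := by linear_combination h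
        rw [this, neg_K]
      have h3 : x + 1 ≠ 1 := by
        intro h; exact h0 (by linear_combination h)
      have h4 : x ≠ x + 1 := by
        intro h
        exact one_ne_zero (α := K) (by linear_combination -h)
      refine ⟨{0, 1, x, x + 1}, ?_, ?_, rfl⟩
      · rw [Finset.card_insert_of_notMem, Finset.card_insert_of_notMem,
          Finset.card_insert_of_notMem, Finset.card_singleton]
        · simp [h4]
        · simp only [Finset.mem_insert, Finset.mem_singleton, not_or]
          exact ⟨h1.symm, h3.symm⟩
        · simp only [Finset.mem_insert, Finset.mem_singleton, not_or]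
          exact ⟨zero_ne_one, h0.symm, h2.symm⟩
      · rw [Finset.sum_insert, Finset.sum_insert, Finset.sum_insert, Finset.sum_singleton]
        · linear_combination (x + 1) * two_K
        · simp [h4]
        · simp only [Finset.mem_insert, Finset.mem_singleton, not_or]
          exact ⟨h1.symm, h3.symm⟩
        · simp only [Finset.mem_insert, Finset.mem_singleton, not_or]
          exact ⟨zero_ne_one, h0.symm, h2.symm⟩
    obtain ⟨x, hx⟩ := Infinite.exists_notMem_finset ({0, 1} : Finset K)
    obtain ⟨y, hy⟩ := Infinite.exists_notMem_finset ({0, 1, x, x + 1} : Finset K)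
    simp only [Finset.mem_insert, Finset.mem_singleton, not_or] at hx hy
    refine ⟨_, key x hx.1 hx.2, _, key y hy.1 hy.2.1, ?_⟩
    intro h
    have h2 : y ∈ (({0, 1, x, x + 1} : Finset K) : Set K) := by
      rw [h]; simp
    simp only [Finset.coe_insert, Finset.coe_singleton, Set.mem_insert_iff,
      Set.mem_singleton_iff] at h2
    rcases h2 with h2 | h2 | h2 | h2
    · exact hy.1 h2
    · exact hy.2.1 h2
    · exact hy.2.2.1 h2
    · exact hy.2.2.2 h2
  · intro s hs
    obtain ⟨p, q, r, hpq, hpr, hqr, rfl⟩ := Finset.card_eq_three.1 hs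
    -- the fourth point
    have n1 : p + q + r ≠ p := by
      intro h
      apply hqr
      have : q = -r := by linear_combination h
      rw [this, neg_K]
    have n2 : p + q + r ≠ q := by
      intro h
      apply hpr
      have : p = -r := by linear_combination h
      rw [this, neg_K]
    have n3 : p + q + r ≠ r := by
      intro h
      apply hpq
      have : p = -q := by linear_combination h
      rw [this, neg_K]
    have hnot : p + q + r ∉ ({p, q, r} : Finset K) := by
      simp only [Finset.mem_insert, Finset.mem_singleton, not_or]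
      exact ⟨n1, n2, n3⟩
    have hsum : ∑ x ∈ ({p, q, r} : Finset K), x = p + q + r := by
      rw [Finset.sum_insert, Finset.sum_insert, Finset.sum_singleton]
      · ring
      · simpa using hqr
      · simp only [Finset.mem_insert, Finset.mem_singleton, not_or]
        exact ⟨hpq, hpr⟩
    refine ⟨((insert (p + q + r) ({p, q, r} : Finset K) : Finset K) : Set K),
      ⟨⟨_, ?_, ?_, rfl⟩, ?_⟩, ?_⟩
    · rw [Finset.card_insert_of_notMem hnot, hs]
    · rw [Finset.sum_insert hnot, hsum]
      linear_combination (p + q + r) * two_K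
    · rw [Finset.coe_subset]
      exact Finset.subset_insert _ _
    · rintro B ⟨⟨t, ht, htsum, rfl⟩, hsub⟩
      rw [Finset.coe_subset] at hsub
      have h1 : (t \ {p, q, r}).card = 1 := by
        rw [Finset.card_sdiff_of_subset hsub, ht, hs]
      obtain ⟨z, hz⟩ := Finset.card_eq_one.1 h1
      have h2 : ∑ x ∈ t \ {p, q, r}, x + ∑ x ∈ ({p, q, r} : Finset K), x = 0 := by
        rw [Finset.sum_sdiff hsub, htsum]
      rw [hz, Finset.sum_singleton, hsum] at h2
      have h3 : z = p + q + r := by
        have : z = -(p + q + r) := by linear_combination h2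
        rw [this, neg_K]
      congr 1
      rw [← h3, ← Finset.sdiff_union_of_subset hsub, hz]
      rfl

lemma transLines : IsKTransitive 2 {g : Equiv.Perm K | Preserves g Lines} := by
  intro x y hx hy
  have hx' : x 1 - x 0 ≠ 0 := sub_ne_zero.2 (hx.ne (by decide))
  have hy' : y 1 - y 0 ≠ 0 := sub_ne_zero.2 (hy.ne (by decide))
  set c : K := (y 1 - y 0) / (x 1 - x 0) with hc
  have hc0 : c ≠ 0 := div_ne_zero hy' hx'
  -- affine maps preserve lines
  have key : ∀ (c e : K), c ≠ 0 → ∀ L ∈ Lines, (fun z => c * z + e) '' L ∈ Lines := by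
    rintro c e hc0 L ⟨a, v, hv, rfl⟩
    refine ⟨c * a + e, c * v, mul_ne_zero hc0 hv, ?_⟩
    unfold line
    rw [← Set.range_comp]
    congr 1
    funext t
    simp only [Function.comp_apply, mul_add, mul_smul_comm]
    abel
  let g : Equiv.Perm K :=
    { toFun := fun z => c * z + (y 0 - c * x 0)
      invFun := fun z => c⁻¹ * z + (x 0 - c⁻¹ * y 0)
      left_inv := fun z => by field_simp; ring
      right_inv := fun z => by field_simp; ring }
  refine ⟨g, ?_, ?_⟩
  · apply Set.Subset.antisymm
    · rintro _ ⟨L, hL, rfl⟩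
      exact key c _ hc0 L hL
    · intro L hL
      refine ⟨g.symm '' L, key c⁻¹ _ (inv_ne_zero hc0) L hL, ?_⟩
      change g '' (g.symm '' L) = L
      rw [Equiv.image_symm_image]
  · intro i
    have hci : c * (x 1 - x 0) = y 1 - y 0 := div_mul_cancel₀ _ hx'
    fin_cases i
    · change c * x 0 + (y 0 - c * x 0) = y 0
      ring
    · change c * x 1 + (y 0 - c * x 0) = y 1
      linear_combination hci

/-- the algebra behind the characterisation of the fourth point of a parallelogram -/
lemma meet (u v : K) (hind : ∀ s t : F, s • u + t • v = 0 → s = 0 ∧ t = 0)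
    (α β s t : F) (a0 : α ≠ 0) (a1 : α ≠ 1) (b0 : β ≠ 0) (b1 : β ≠ 1)
    (h : α • u + s • (β • v - α • u) = (α + 1) • u + t • ((β + 1) • v - (α + 1) • u)) :
    α • u + s • (β • v - α • u) = u + v := by
  have h1 : (α - s * α - (α + 1) + t * (α + 1)) • u + (s * β - t * (β + 1)) • v = 0 := by
    have e : (α - s * α - (α + 1) + t * (α + 1)) • u + (s * β - t * (β + 1)) • v =
        (α • u + s • (β • v - α • u)) - ((α + 1) • u + t • ((β + 1) • v - (α + 1) • u)) := by
      module
    rw [e, h, sub_self]
  obtain ⟨h2, h3⟩ := hind _ _ h1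
  have hα := sq_eq a0 a1
  have h2F := two_F
  rcases eq_or a0 a1 b0 b1 with rfl | rfl
  · exfalso
    apply one_ne_zero (α := F)
    linear_combination -h2 - h3
  · -- `β = α + 1`
    have h4 : s * (α + 1) = t * α := by linear_combination h3 + t * h2F
    have h5 : t = s * α := by
      have : t * α = s * α * α := by
        rw [← h4]; linear_combination -s * hα
      exact mul_right_cancel₀ a0 this
    have h6 : s = α := by
      have h7 : s * α ^ 2 = 1 := by
        rw [h5] at h2
        linear_combination h2
      have h8 : s * α ^ 2 * α = α := by rw [h7, one_mul]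
      have h9 : α ^ 3 = 1 := by linear_combination (α + 1) * hα + α * h2F
      linear_combination h8 - s * h9
    have e1 : α • u + s • ((α + 1) • v - α • u) = (α - s * α) • u + (s * (α + 1)) • v := by
      simp only [smul_sub, smul_smul, sub_smul]
      abel
    rw [e1, h6]
    have h10 : α - α * α = 1 := by linear_combination -hα - h2F
    have h11 : α * (α + 1) = 1 := by linear_combination hα + α * h2F
    rw [h10, h11, one_smul, one_smul]

/-- collinear quadruples -/
lemma sum_collinear {L : Set K} (hL : L ∈ Lines) {a b c d : K} (ha : a ∈ L) (hb : b ∈ L)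
    (hc : c ∈ L) (hd : d ∈ L) (hab : a ≠ b) (hac : a ≠ c) (had : a ≠ d) (hbc : b ≠ c)
    (hbd : b ≠ d) (hcd : c ≠ d) : a + b + c + d = 0 := by
  obtain ⟨p, v, hv, rfl⟩ := hL
  rw [line_eq ha hb hab] at hc hd
  obtain ⟨s, rfl⟩ := hc
  obtain ⟨t, rfl⟩ := hd
  have s0 : s ≠ 0 := by rintro rfl; simp at hac
  have s1 : s ≠ 1 := by rintro rfl; simp at hbc
  have t0 : t ≠ 0 := by rintro rfl; simp at had
  have t1 : t ≠ 1 := by rintro rfl; simp at hbd
  have hst : t = s + 1 := by
    rcases eq_or s0 s1 t0 t1 with h | h
    · subst h; exact absurd rfl hcd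
    · exact h
  subst hst
  have e : a + b + (a + s • (b - a)) + (a + (s + 1) • (b - a)) =
      (2 : K) * (a + b) + (s + s) • (b - a) := by
    simp only [add_smul, one_smul]
    ring
  rw [e, two_K, zero_mul, CharTwo.add_self_eq_zero, zero_smul, add_zero]

/-- automorphisms of the line structure preserve quadruples with sum zero -/
lemma aut_sum (g : Equiv.Perm K) (hg : ∀ L ∈ Lines, g '' L ∈ Lines) (a b c : K) (hab : a ≠ b)
    (hac : a ≠ c) (hbc : b ≠ c) : g a + g b + g c + g (a + b + c) = 0 := by
  classical
  have gab : g a ≠ g b := g.injective.ne hab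
  have gac : g a ≠ g c := g.injective.ne hac
  have hu : b - a ≠ 0 := sub_ne_zero.2 hab.symm
  have hv : c - a ≠ 0 := sub_ne_zero.2 hac.symm
  have n1 : a + b + c ≠ a := by
    intro h
    apply hbc
    have : b = -c := by linear_combination h
    rw [this, neg_K]
  have n2 : a + b + c ≠ b := by
    intro h
    apply hac
    have : a = -c := by linear_combination h
    rw [this, neg_K]
  have n3 : a + b + c ≠ c := by
    intro h
    apply hab
    have : a = -b := by linear_combination h
    rw [this, neg_K]
  by_cases hcol : c ∈ line a (b - a)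
  · -- collinear case
    have hd : a + b + c ∈ line a (b - a) := by
      obtain ⟨t, ht⟩ := hcol
      refine ⟨t + 1, ?_⟩
      simp only at ht ⊢
      rw [add_smul, one_smul, ← ht]
      linear_combination -a * two_K
    have hL := hg _ ⟨a, b - a, hu, rfl⟩
    exact sum_collinear hL ⟨a, left_mem _ _, rfl⟩ ⟨b, right_mem _ _, rfl⟩ ⟨c, hcol, rfl⟩
      ⟨_, hd, rfl⟩ gab gac (g.injective.ne n1.symm) (g.injective.ne hbc) (g.injective.ne n2.symm)
      (g.injective.ne n3.symm)
  · -- an element of `F` outside `{0,1}`
    obtain ⟨w, hw0, hw1⟩ : ∃ w : F, w ≠ 0 ∧ w ≠ 1 := by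
      by_contra h
      push Not at h
      have h4 : Fintype.card F ≤ ({0, 1} : Finset F).card := by
        rw [← Finset.card_univ]
        apply Finset.card_le_card
        intro x _
        by_cases hx : x = 0
        · simp [hx]
        · simp [h x hx]
      have h5 : ({0, 1} : Finset F).card ≤ 2 := Finset.card_le_two
      rw [cardF'] at h4
      omega
    have hw := sq_eq hw0 hw1
    have w1 : w + 1 ≠ 0 := by
      intro h
      apply hw1
      have : w = -1 := by linear_combination h
      rw [this, CharTwo.neg_eq]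
    have w2 : w + 1 ≠ 1 := by intro h; exact hw0 (by linear_combination h)
    have w3 : w ≠ w + 1 := by intro h; exact one_ne_zero (α := F) (by linear_combination -h)
    set u := b - a with hudef
    set v := c - a with hvdef
    -- the lines
    have L1 := hg _ ⟨a, u, hu, rfl⟩
    have L2 := hg _ ⟨a, v, hv, rfl⟩
    -- images of the points of `ab`
    have onLine : ∀ (v : K), v ≠ 0 → ∀ t : F, t ≠ 0 → t ≠ 1 →
        ∃ t' : F, t' ≠ 0 ∧ t' ≠ 1 ∧ g (a + t • v) = g a + t' • (g (a + v) - g a) := by
      intro v hv t ht0 ht1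
      obtain ⟨p, r, hr, he⟩ := hg _ ⟨a, v, hv, rfl⟩
      have m0 : g a ∈ line p r := he ▸ ⟨a, left_mem _ _, rfl⟩
      have m1 : g (a + v) ∈ line p r := he ▸ ⟨a + v, ⟨1, by simp⟩, rfl⟩
      have m2 : g (a + t • v) ∈ line p r := he ▸ ⟨a + t • v, ⟨t, rfl⟩, rfl⟩
      have hne : g a ≠ g (a + v) := g.injective.ne (by simpa using hv)
      rw [line_eq m0 m1 hne] at m2
      obtain ⟨t', ht'⟩ := m2
      refine ⟨t', ?_, ?_, ht'.symm⟩
      · rintro rfl
        simp only [zero_smul, add_zero] at ht'
        have := g.injective ht'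
        rw [left_eq_add, smul_eq_zero] at this
        rcases this with h | h
        · exact ht0 h
        · exact hv h
      · rintro rfl
        simp only [one_smul, add_sub_cancel] at ht'
        have := g.injective ht'
        have h2 : (1 : F) • v = t • v := by rw [one_smul]; exact add_left_cancel this
        exact ht1 (smul_left_injective F hv h2).symm
    obtain ⟨α, a0, a1, hα⟩ := onLine u hu w hw0 hw1
    obtain ⟨α', a0', a1', hα'⟩ := onLine u hu (w + 1) w1 w2
    obtain ⟨β, b0, b1, hβ⟩ := onLine v hv (w + 1) w1 w2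
    obtain ⟨β', b0', b1', hβ'⟩ := onLine v hv w hw0 hw1
    have eb : a + u = b := by rw [hudef]; ring
    have ec : a + v = c := by rw [hvdef]; ring
    rw [eb] at hα hα'
    rw [ec] at hβ hβ'
    set u' := g b - g a with hu'
    set v' := g c - g a with hv'
    have hu'0 : u' ≠ 0 := sub_ne_zero.2 gab.symm
    have hv'0 : v' ≠ 0 := sub_ne_zero.2 gac.symm
    have hα'' : α' = α + 1 := by
      rcases eq_or a0 a1 a0' a1' with h | h
      · exfalso
        rw [h, ← hα] at hα'
        have := g.injective hα'
        have h2 := smul_left_injective F hu (add_left_cancel this)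
        exact w3 h2.symm
      · exact h
    have hβ'' : β' = β + 1 := by
      rcases eq_or b0 b1 b0' b1' with h | h
      · exfalso
        rw [h, ← hβ] at hβ'
        have := g.injective hβ'
        have h2 := smul_left_injective F hv (add_left_cancel this)
        exact w3 h2
      · exact h
    subst hα'' hβ''
    -- independence of `u'` and `v'`
    have hind : ∀ s t : F, s • u' + t • v' = 0 → s = 0 ∧ t = 0 := by
      intro s t hst
      by_cases ht : t = 0
      · subst ht
        rw [zero_smul, add_zero, smul_eq_zero] at hst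
        exact ⟨hst.resolve_right hu'0, rfl⟩
      · exfalso
        apply hcol
        have h1 : v' = (-(s / t)) • u' := by
          have h2 : t • v' = -(s • u') := by
            rw [eq_neg_iff_add_eq_zero, add_comm]; exact hst
          have h3 : t⁻¹ • (t • v') = t⁻¹ • (-(s • u')) := by rw [h2]
          rw [smul_smul, inv_mul_cancel₀ ht, one_smul, smul_neg, smul_smul] at h3
          rw [h3, neg_smul]
          congr 2
          rw [div_eq_inv_mul]
        obtain ⟨p, r, hr, he⟩ := L1
        have m0 : g a ∈ line p r := he ▸ ⟨a, left_mem _ _, rfl⟩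
        have m1 : g b ∈ line p r := he ▸ ⟨b, right_mem _ _, rfl⟩
        have m2 : g c ∈ line p r := by
          rw [line_eq m0 m1 gab]
          refine ⟨-(s / t), ?_⟩
          simp only
          rw [← hu', ← h1, hv']
          ring
        rw [← he] at m2
        obtain ⟨z, hz, hzc⟩ := m2
        rwa [g.injective hzc] at hz
    -- the two lines through `a + b + c`
    have hd : ∀ (x y z : K), x ≠ y → z ∈ line x (y - x) →
        ∃ s : F, g z = g x + s • (g y - g x) := by
      intro x y z hxy hz
      obtain ⟨p, r, hr, he⟩ := hg _ ⟨x, y - x, sub_ne_zero.2 hxy.symm, rfl⟩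
      have m0 : g x ∈ line p r := he ▸ ⟨x, left_mem _ _, rfl⟩
      have m1 : g y ∈ line p r := he ▸ ⟨y, right_mem _ _, rfl⟩
      have m2 : g z ∈ line p r := he ▸ ⟨z, hz, rfl⟩
      rw [line_eq m0 m1 (g.injective.ne hxy)] at m2
      obtain ⟨s, hs⟩ := m2
      exact ⟨s, hs.symm⟩
    have huv : ∀ s t : F, s ≠ 0 → s • u ≠ t • v := by
      intro s t hs h
      have ht : t ≠ 0 := by
        rintro rfl
        rw [zero_smul, smul_eq_zero] at h
        rcases h with h | h
        · exact hs h
        · exact hu h
      apply hcol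
      refine ⟨t⁻¹ * s, ?_⟩
      simp only
      rw [mul_smul, h, smul_smul, inv_mul_cancel₀ ht, one_smul, ec]
    obtain ⟨s, hs⟩ := hd (a + w • u) (a + (w + 1) • v) (a + b + c)
      (fun h => huv _ _ hw0 (add_left_cancel h)) (by
        refine ⟨w, ?_⟩
        have h1 : w • (a + (w + 1) • v - (a + w • u)) = (w * (w + 1)) • v - (w * w) • u := by
          rw [add_sub_add_left_eq_sub, smul_sub, smul_smul, smul_smul]
        simp only [h1]
        have h2 : w * (w + 1) = 1 := by linear_combination hw + w * two_F
        have h3 : w * w = w + 1 := by linear_combination hw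
        rw [h2, h3, add_smul, one_smul, one_smul]
        have h4 : a + w • u + (v - (w • u + u)) = a + v - u := by abel
        rw [h4, ← eb, ← ec]
        linear_combination (-(a + u)) * two_K)
    obtain ⟨t, ht⟩ := hd (a + (w + 1) • u) (a + w • v) (a + b + c)
      (fun h => huv _ _ w1 (add_left_cancel h)) (by
        refine ⟨w + 1, ?_⟩
        have h1 : (w + 1) • (a + w • v - (a + (w + 1) • u)) =
            ((w + 1) * w) • v - ((w + 1) * (w + 1)) • u := by
          rw [add_sub_add_left_eq_sub, smul_sub, smul_smul, smul_smul]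
        simp only [h1]
        have h2 : (w + 1) * w = 1 := by linear_combination hw + w * two_F
        have h3 : (w + 1) * (w + 1) = w := by linear_combination hw + (w + 1) * two_F
        rw [h2, h3, add_smul, one_smul, one_smul]
        have h4 : a + (w • u + u) + (v - w • u) = a + u + v := by abel
        rw [h4, ← eb, ← ec]
        linear_combination (-a) * two_K)
    rw [hα, hβ] at hs
    rw [hα', hβ'] at ht
    have e1 : g (a + b + c) - g a = α • u' + s • (β • v' - α • u') := by
      rw [hs, add_sub_add_left_eq_sub]; abel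
    have e2 : g (a + b + c) - g a = (α + 1) • u' + t • ((β + 1) • v' - (α + 1) • u') := by
      rw [ht, add_sub_add_left_eq_sub]; abel
    have h3 := meet u' v' hind α β s t a0 a1 b0 b1 (by rw [← e1, e2])
    rw [← e1] at h3
    have h4 : g (a + b + c) = g b + g c - g a := by
      rw [hu', hv'] at h3
      linear_combination h3
    rw [h4]
    linear_combination (g b + g c) * two_K

lemma aut_quads (g : Equiv.Perm K) (hg : ∀ L ∈ Lines, g '' L ∈ Lines) :
    ∀ D ∈ Quads, g '' D ∈ Quads := by
  classical
  rintro _ ⟨s, hs, hsum, rfl⟩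
  refine ⟨s.image g, by rw [Finset.card_image_of_injective _ g.injective, hs], ?_, by simp⟩
  rw [Finset.sum_image (fun x _ y _ h => g.injective h)]
  obtain ⟨a, ha⟩ : s.Nonempty := by rw [← Finset.card_pos, hs]; norm_num
  have h3 : (s.erase a).card = 3 := by rw [Finset.card_erase_of_mem ha, hs]
  obtain ⟨b, c, d, hbc, hbd, hcd, he⟩ := Finset.card_eq_three.1 h3
  have hs' : s = insert a {b, c, d} := by rw [← he, Finset.insert_erase ha]
  have hna : a ∉ ({b, c, d} : Finset K) := by rw [← he]; exact Finset.notMem_erase a s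
  simp only [Finset.mem_insert, Finset.mem_singleton, not_or] at hna
  have sum4 : ∀ f : K → K, ∑ x ∈ s, f x = f a + (f b + (f c + f d)) := by
    intro f
    rw [hs', Finset.sum_insert, Finset.sum_insert, Finset.sum_insert, Finset.sum_singleton]
    · simpa using hcd
    · simp only [Finset.mem_insert, Finset.mem_singleton, not_or]
      exact ⟨hbc, hbd⟩
    · simp only [Finset.mem_insert, Finset.mem_singleton, not_or]
      exact hna
  rw [sum4 g]
  rw [sum4 fun x => x] at hsum
  have hd : d = a + b + c := by
    have : d = -(a + b + c) := by linear_combination hsum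
    rw [this, neg_K]
  have := aut_sum g hg a b c hna.1 hna.2.1 hbc
  rw [← hd] at this
  linear_combination this

end

/-- Q1 has a positive answer. -/
theorem result : ∃ (k l : ℕ) (Ω : Type) (𝓑 𝓒 : Set (Set Ω)), 2 ≤ k ∧ 2 ≤ l ∧ k ≠ l ∧
    Countable Ω ∧ Infinite Ω ∧ IsSteiner k 𝓑 ∧ IsSteiner l 𝓒 ∧
    IsKTransitive k {g : Equiv.Perm Ω | Preserves g 𝓑} ∧
    ∀ g : Equiv.Perm Ω, Preserves g 𝓑 → Preserves g 𝓒 := by
  refine ⟨2, 3, K, Lines, Quads, le_rfl, by norm_num, by norm_num, countK, inferInstance,
    steinerLines, steinerQuads, transLines, ?_⟩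
  intro g hg
  have h1 : ∀ L ∈ Lines, g '' L ∈ Lines := fun L hL => by
    have : g '' L ∈ (fun B : Set K => g '' B) '' Lines := ⟨L, hL, rfl⟩
    rwa [hg] at this
  have h2 : ∀ L ∈ Lines, g.symm '' L ∈ Lines := fun L hL => by
    rw [← hg] at hL
    obtain ⟨M, hM, rfl⟩ := hL
    simp only
    rw [Equiv.symm_image_image]
    exact hM
  apply Set.Subset.antisymm
  · rintro _ ⟨D, hD, rfl⟩
    exact aut_quads g h1 D hD
  · intro D hD
    exact ⟨g.symm '' D, aut_quads g.symm h2 D hD, Equiv.image_symm_image g D⟩

end Pool.Agent.Results.MP_19fe04_lc.SteinerPair
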